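import Mathlib

/-!
# Algebraic independence of polynomials with nonsingular linear parts
-/

set_option autoImplicit false

namespace Pool.Agent.N95.UN

open MvPolynomial

variable {σ : Type*} [Fintype σ] [DecidableEq σ]

theorem pderiv_aeval_eq (N : σ → MvPolynomial σ ℂ) (j : σ) (G : MvPolynomial σ ℂ) :
    pderiv j (aeval N G) = ∑ i, pderiv j (N i) * aeval N (pderiv i G) := by
  induction G using MvPolynomial.induction_on with
  | C a => simp [algebraMap_eq]
  | add p q hp hq => simp only [map_add, hp, hq, mul_add, Finset.sum_add_distrib]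
  | mul_X p k hp =>
    rw [map_mul, aeval_X, pderiv_mul, hp]
    have : ∀ i, pderiv j (N i) * aeval N (pderiv i (p * X k)) =
        pderiv j (N i) * aeval N (pderiv i p) * N k +
          (if i = k then pderiv j (N k) * aeval N p else 0) := by
      intro i
      rw [pderiv_mul, map_add, map_mul, map_mul, aeval_X, pderiv_X]
      by_cases h : i = k
      · subst h
        simp
        ring
      · have h' : k ≠ i := fun e => h e.symm
        simp [h, h']
        ring
    simp only [this, Finset.sum_add_distrib, Finset.sum_mul, Finset.sum_ite_eq',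
      Finset.mem_univ, if_true]
    ring

omit [Fintype σ] [DecidableEq σ] in
theorem constantCoeff_pderiv (j : σ) (p : MvPolynomial σ ℂ) :
    constantCoeff (pderiv j p) = coeff (Finsupp.single j 1) p := by
  rw [constantCoeff_eq, coeff_pderiv]
  simp

omit [Fintype σ] in
theorem eq_C_of_pderiv_eq_zero (G : MvPolynomial σ ℂ) (h : ∀ i, pderiv i G = 0) :
    G = C (coeff 0 G) := by
  ext m
  rw [coeff_C]
  by_cases hm : 0 = m
  · subst hm; simp
  · rw [if_neg hm]
    obtain ⟨i, hi⟩ : ∃ i, m i ≠ 0 := by
      by_contra hcon
      push Not at hcon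
      exact hm (Finsupp.ext fun i => by simp [hcon i])
    have h1 := congrArg (coeff (m - Finsupp.single i 1)) (h i)
    rw [coeff_pderiv, coeff_zero] at h1
    have h2 : m - Finsupp.single i 1 + Finsupp.single i 1 = m := by
      apply tsub_add_cancel_of_le
      intro k
      rw [Finsupp.single_apply]
      split_ifs with hk
      · subst hk; omega
      · exact Nat.zero_le _
    rw [h2] at h1
    rcases mul_eq_zero.1 h1 with h3 | h3
    · exact h3
    · exfalso
      have : (((m - Finsupp.single i 1 : σ →₀ ℕ) i + 1 : ℕ) : ℂ) ≠ 0 :=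
        Nat.cast_ne_zero.2 (Nat.succ_ne_zero _)
      rw [Nat.cast_add, Nat.cast_one] at this
      exact this h3

omit [Fintype σ] [DecidableEq σ] in
theorem totalDegree_pderiv_le (G : MvPolynomial σ ℂ) (i : σ) (k : ℕ)
    (h : G.totalDegree ≤ k + 1) : (pderiv i G).totalDegree ≤ k := by
  unfold totalDegree
  refine Finset.sup_le fun m hm => ?_
  rw [mem_support_iff, coeff_pderiv] at hm
  have h1 : m + Finsupp.single i 1 ∈ G.support := mem_support_iff.2 (left_ne_zero_of_mul hm)
  have h2 := (le_totalDegree h1).trans h
  rw [Finsupp.sum_add_index' (fun _ => rfl) (fun _ _ _ => rfl), Finsupp.sum_single_index rfl] at h2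
  omega

theorem eq_zero_of_aeval_eq_zero (N : σ → MvPolynomial σ ℂ)
    (hdet : (Matrix.of fun i j => coeff (Finsupp.single j 1) (N i)).det ≠ 0)
    (G : MvPolynomial σ ℂ) (hG : aeval N G = 0) : G = 0 := by
  obtain ⟨k, hk⟩ : ∃ k, G.totalDegree ≤ k := ⟨_, le_rfl⟩
  have key : ∀ G : MvPolynomial σ ℂ, aeval N G = 0 → (∀ i, pderiv i G = 0) → G = 0 := by
    intro G hG h
    have h1 := eq_C_of_pderiv_eq_zero G h
    rw [h1] at hG ⊢
    rw [aeval_C, algebraMap_eq] at hG
    exact hG
  induction k generalizing G with
  | zero =>
    apply key G hG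
    intro i
    have h1 := totalDegree_eq_zero_iff_eq_C.1 (Nat.le_zero.1 hk)
    rw [h1, pderiv_C]
  | succ k ih =>
    apply key G hG
    set M : Matrix σ σ (MvPolynomial σ ℂ) := Matrix.of fun j i => pderiv j (N i) with hM
    have hdetM : M.det ≠ 0 := by
      intro h0
      apply hdet
      have h1 : (Matrix.of fun i j => coeff (Finsupp.single j 1) (N i)) =
          (constantCoeff.mapMatrix M).transpose := by
        ext i j
        simp only [Matrix.of_apply, Matrix.transpose_apply, RingHom.mapMatrix_apply,
          Matrix.map_apply, hM, constantCoeff_pderiv]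
      rw [h1, Matrix.det_transpose, ← RingHom.map_det, h0, map_zero]
    have hv : M.mulVec (fun i => aeval N (pderiv i G)) = 0 := by
      funext j
      have h1 := pderiv_aeval_eq N j G
      rw [hG, map_zero] at h1
      simpa [Matrix.mulVec, dotProduct, hM] using h1.symm
    have hv0 := Matrix.eq_zero_of_mulVec_eq_zero hdetM hv
    intro i
    exact ih (pderiv i G) (congrFun hv0 i) (totalDegree_pderiv_le G i k hk)

end Pool.Agent.N95.UN
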