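import Pool.Agent.N95.UN.Fill

/-!
# Upper bounds for the dimension
-/

set_option autoImplicit false

namespace Pool.Agent.N95.UN

open MvPolynomial

/-- exponent vectors of the monomials of degree `m` in `n` variables -/
abbrev Ex (n m : ℕ) : Type := ↥(Finset.Nat.antidiagonalTuple n m)

/-- parameters -/
abbrev Par (e1 e2 m1 m2 m3 : ℕ) : Type :=
  (Fin e1 × Fin (m1 + 1)) ⊕ ((Fin e2 × Ex e1 m2) ⊕ Ex e2 m3)

section gen
variable {e1 e2 m1 m2 m3 : ℕ} {R : Type*} [CommRing R]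

noncomputable def SS (w : Par e1 e2 m1 m2 m3 → R) (j : Fin e1) : MvPolynomial ℕ R :=
  ∑ i : Fin (m1 + 1), C (w (Sum.inl (j, i))) * monomial (mon m1 i) 1

noncomputable def GG (w : Par e1 e2 m1 m2 m3 → R) (k : Fin e2) : MvPolynomial ℕ R :=
  ∑ γ : Ex e1 m2, C (w (Sum.inr (Sum.inl (k, γ)))) * ∏ j, (SS w j ^ 2) ^ γ.1 j

noncomputable def FF (w : Par e1 e2 m1 m2 m3 → R) : MvPolynomial ℕ R :=
  ∑ β : Ex e2 m3, C (w (Sum.inr (Sum.inr β))) * ∏ k, (GG w k ^ 2) ^ β.1 k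

theorem SS_map {S : Type*} [CommRing S] (φ : R →+* S) (w : Par e1 e2 m1 m2 m3 → R) (j : Fin e1) :
    map φ (SS w j) = SS (fun i => φ (w i)) j := by
  simp [SS, map_sum]

theorem GG_map {S : Type*} [CommRing S] (φ : R →+* S) (w : Par e1 e2 m1 m2 m3 → R) (k : Fin e2) :
    map φ (GG w k) = GG (fun i => φ (w i)) k := by
  simp [GG, map_sum, map_prod, SS_map]

theorem FF_map {S : Type*} [CommRing S] (φ : R →+* S) (w : Par e1 e2 m1 m2 m3 → R) :
    map φ (FF w) = FF (fun i => φ (w i)) := by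
  simp [FF, map_sum, map_prod, GG_map]

end gen

theorem eval_aeval {σ τ : Type*} (w : τ → ℂ) (Ψ : σ → MvPolynomial τ ℂ) (G : MvPolynomial σ ℂ) :
    eval w (aeval Ψ G) = eval (fun i => eval w (Ψ i)) G :=
  aeval_bind₁ (R := ℂ) w Ψ G

theorem scale_aux (a : ℂ) (ha : a ≠ 0) (S : MvPolynomial ℕ ℂ) (n : ℕ) :
    C ((a ^ 2) ^ n) * ((C a⁻¹ * S) ^ 2) ^ n = (S ^ 2) ^ n := by
  rw [map_pow, map_pow, ← mul_pow, ← mul_pow, ← mul_assoc, ← map_mul, mul_inv_cancel₀ ha, map_one,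
    one_mul]

section scale
variable {e1 e2 m1 m2 m3 : ℕ}

/-- the rescaled parameters -/
noncomputable def resc (γ0 : Ex e1 m2) (w : Par e1 e2 m1 m2 m3 → ℂ) : Par e1 e2 m1 m2 m3 → ℂ
  | Sum.inl (j, i) => (w (Sum.inl (j, 0)))⁻¹ * w (Sum.inl (j, i))
  | Sum.inr (Sum.inl (k, γ)) =>
      (w (Sum.inr (Sum.inl (k, γ0))) * ∏ j, (w (Sum.inl (j, 0)) ^ 2) ^ γ0.1 j)⁻¹ *
        (w (Sum.inr (Sum.inl (k, γ))) * ∏ j, (w (Sum.inl (j, 0)) ^ 2) ^ γ.1 j)
  | Sum.inr (Sum.inr β) => w (Sum.inr (Sum.inr β)) *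
      ∏ k, ((w (Sum.inr (Sum.inl (k, γ0))) * ∏ j, (w (Sum.inl (j, 0)) ^ 2) ^ γ0.1 j) ^ 2) ^ β.1 k

theorem SS_resc (γ0 : Ex e1 m2) (w : Par e1 e2 m1 m2 m3 → ℂ) (j : Fin e1) :
    SS (resc γ0 w) j = C (w (Sum.inl (j, 0)))⁻¹ * SS w j := by
  unfold SS
  rw [Finset.mul_sum]
  refine Finset.sum_congr rfl fun i _ => ?_
  rw [resc, map_mul, mul_assoc]

theorem GG_resc (γ0 : Ex e1 m2) (w : Par e1 e2 m1 m2 m3 → ℂ) (hw : ∀ i, w i ≠ 0) (k : Fin e2) :
    GG (resc γ0 w) k =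
      C (w (Sum.inr (Sum.inl (k, γ0))) * ∏ j, (w (Sum.inl (j, 0)) ^ 2) ^ γ0.1 j)⁻¹ * GG w k := by
  unfold GG
  rw [Finset.mul_sum]
  refine Finset.sum_congr rfl fun γ _ => ?_
  rw [resc, map_mul, map_mul C (w _), mul_assoc, mul_assoc, map_prod, ← Finset.prod_mul_distrib]
  congr 3
  funext j
  rw [SS_resc, scale_aux _ (hw _)]

theorem FF_resc (γ0 : Ex e1 m2) (w : Par e1 e2 m1 m2 m3 → ℂ) (hw : ∀ i, w i ≠ 0) :
    FF (resc γ0 w) = FF w := by
  unfold FF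
  refine Finset.sum_congr rfl fun β _ => ?_
  rw [resc, map_mul, mul_assoc, map_prod, ← Finset.prod_mul_distrib]
  congr 2
  funext k
  have hne : w (Sum.inr (Sum.inl (k, γ0))) * ∏ j, (w (Sum.inl (j, 0)) ^ 2) ^ γ0.1 j ≠ 0 := by
    refine mul_ne_zero (hw _) (Finset.prod_ne_zero_iff.2 fun j _ => ?_)
    exact pow_ne_zero _ (pow_ne_zero _ (hw _))
  rw [GG_resc γ0 w hw, scale_aux _ hne]

end scale

/-- polynomials in fewer variables are algebraically dependent -/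
theorem exists_dep {ι : Type} [Fintype ι] (n : ℕ) (h : Fintype.card ι < n)
    (Ψ : Fin n → MvPolynomial ι ℂ) :
    ∃ G : MvPolynomial (Fin n) ℂ, G ≠ 0 ∧ aeval Ψ G = 0 := by
  by_contra hcon
  push Not at hcon
  have hai : AlgebraicIndependent ℂ Ψ := by
    rw [algebraicIndependent_iff]
    intro p hp
    by_contra hne
    exact hcon p hne hp
  have h1 := hai.cardinalMk_le_trdeg
  rw [MvPolynomial.trdeg_of_isDomain] at h1
  simp only [Cardinal.mk_fintype, Cardinal.lift_natCast, Fintype.card_fin] at h1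
  have h2 : n ≤ Fintype.card ι := by exact_mod_cast h1
  omega

section main
variable {e1 e2 m1 m2 m3 : ℕ}

/-- the remaining parameters after normalization -/
abbrev Par' (e1 e2 m1 m2 m3 : ℕ) (γ0 : Ex e1 m2) : Type :=
  (Fin e1 × Fin m1) ⊕ ((Fin e2 × {γ : Ex e1 m2 // γ ≠ γ0}) ⊕ Ex e2 m3)

noncomputable def emb (γ0 : Ex e1 m2) {R : Type*} [CommRing R] (w : Par' e1 e2 m1 m2 m3 γ0 → R) :
    Par e1 e2 m1 m2 m3 → R := by
  classical
  exact fun i => match i with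
  | Sum.inl (j, i) => Fin.cases 1 (fun i => w (Sum.inl (j, i))) i
  | Sum.inr (Sum.inl (k, γ)) => if h : γ ≠ γ0 then w (Sum.inr (Sum.inl (k, ⟨γ, h⟩))) else 1
  | Sum.inr (Sum.inr β) => w (Sum.inr (Sum.inr β))

theorem emb_map (γ0 : Ex e1 m2) {R S : Type*} [CommRing R] [CommRing S] (φ : R →+* S)
    (w : Par' e1 e2 m1 m2 m3 γ0 → R) (i : Par e1 e2 m1 m2 m3) :
    φ (emb γ0 w i) = emb γ0 (fun i => φ (w i)) i := by
  classical
  unfold emb
  rcases i with ⟨j, i⟩ | ⟨k, γ⟩ | β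
  · refine Fin.cases ?_ (fun i => ?_) i
    · simp
    · simp
  · dsimp only
    split_ifs with h
    · rfl
    · exact map_one φ
  · rfl

theorem resc_eq_emb (γ0 : Ex e1 m2) (w : Par e1 e2 m1 m2 m3 → ℂ) (hw : ∀ i, w i ≠ 0) :
    ∃ w' : Par' e1 e2 m1 m2 m3 γ0 → ℂ, resc γ0 w = emb γ0 w' := by
  classical
  refine ⟨fun i => match i with
    | Sum.inl (j, i) => resc γ0 w (Sum.inl (j, i.succ))
    | Sum.inr (Sum.inl (k, γ)) => resc γ0 w (Sum.inr (Sum.inl (k, γ.1)))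
    | Sum.inr (Sum.inr β) => resc γ0 w (Sum.inr (Sum.inr β)), ?_⟩
  funext i
  unfold emb
  rcases i with ⟨j, i⟩ | ⟨k, γ⟩ | β
  · refine Fin.cases ?_ (fun i => ?_) i
    · simp only [Fin.cases_zero]
      rw [resc, inv_mul_cancel₀ (hw _)]
    · simp only [Fin.cases_succ]
  · dsimp only
    split_ifs with h
    · rfl
    · have h' : γ = γ0 := not_not.1 h
      subst h'
      rw [resc, inv_mul_cancel₀]
      refine mul_ne_zero (hw _) (Finset.prod_ne_zero_iff.2 fun j _ => ?_)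
      exact pow_ne_zero _ (pow_ne_zero _ (hw _))
  · rfl

theorem exists_vanish (γ0 : Ex e1 m2) (hcard : Fintype.card (Par' e1 e2 m1 m2 m3 γ0) < 65) :
    ∃ G : MvPolynomial (Fin 65) ℂ, G ≠ 0 ∧ ∀ w : Par e1 e2 m1 m2 m3 → ℂ,
      eval (fun m : Fin 65 => coeff (mon 64 m) (FF w)) G = 0 := by
  classical
  set Ψ : Fin 65 → MvPolynomial (Par' e1 e2 m1 m2 m3 γ0) ℂ :=
    fun m => coeff (mon 64 m) (FF (emb γ0 fun i => X i)) with hΨ
  obtain ⟨G, hG0, hG⟩ := exists_dep 65 hcard Ψ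
  refine ⟨G, hG0, ?_⟩
  -- vanishing on the normalized parameters
  have h1 : ∀ w' : Par' e1 e2 m1 m2 m3 γ0 → ℂ,
      eval (fun m : Fin 65 => coeff (mon 64 m) (FF (emb γ0 w'))) G = 0 := by
    intro w'
    have h2 := congrArg (eval w') hG
    rw [map_zero, eval_aeval] at h2
    refine Eq.trans (congrArg (fun f => eval f G) (funext fun m => ?_)) h2
    rw [hΨ]
    dsimp only
    rw [← coeff_map, FF_map]
    refine congrArg (fun f => coeff (mon 64 m) (FF f)) (funext fun i => ?_)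
    rw [emb_map]
    simp only [eval_X]
  -- vanishing when all parameters are nonzero
  have h2 : ∀ w : Par e1 e2 m1 m2 m3 → ℂ, (∀ i, w i ≠ 0) →
      eval (fun m : Fin 65 => coeff (mon 64 m) (FF w)) G = 0 := by
    intro w hw
    obtain ⟨w', hw'⟩ := resc_eq_emb γ0 w hw
    rw [← FF_resc γ0 w hw, hw']
    exact h1 w'
  -- vanishing everywhere
  set Φ : Fin 65 → MvPolynomial (Par e1 e2 m1 m2 m3) ℂ :=
    fun m => coeff (mon 64 m) (FF fun i => X i) with hΦ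
  have h3 : ∀ w : Par e1 e2 m1 m2 m3 → ℂ,
      eval w (aeval Φ G) = eval (fun m : Fin 65 => coeff (mon 64 m) (FF w)) G := by
    intro w
    rw [eval_aeval]
    refine congrArg (fun f => eval f G) (funext fun m => ?_)
    rw [hΦ]
    dsimp only
    rw [← coeff_map, FF_map]
    refine congrArg (fun f => coeff (mon 64 m) (FF f)) (funext fun i => ?_)
    simp only [eval_X]
  have h4 : aeval Φ G = 0 := by
    refine MvPolynomial.funext_set (fun _ => {z : ℂ | z ≠ 0}) (fun _ => ?_) fun w hw => ?_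
    · have : {z : ℂ | z ≠ 0} = {(0 : ℂ)}ᶜ := rfl
      rw [this]
      exact Set.Finite.infinite_compl (Set.finite_singleton 0)
    · rw [h3, map_zero]
      exact h2 w fun i => hw i trivial
  intro w
  rw [← h3, h4, map_zero]

end main

end Pool.Agent.N95.UN
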