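import Pool.Agent.N95.UN.Bound

/-!
# Networks with a bottleneck
-/

set_option autoImplicit false

namespace Pool.Agent.N95.UN

open MvPolynomial

theorem out_comp {R : Type*} [CommSemiring R] (e : ℕ → ℕ) (W : ℕ → ℕ → ℕ → R) (x : ℕ → R)
    (p : ℕ) : ∀ l : ℕ, out e W x (p + 1 + l + 1) =
      out (fun k => e (p + 1 + k)) (fun k => W (p + 1 + k)) (fun b => out e W x (p + 1) b ^ 2) (l + 1)
  | 0 => rfl
  | l + 1 => by
    have h := out_comp e W x p l
    have h1 : out e W x (p + 1 + (l + 1) + 1) =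
        lay (e (p + 1 + l + 1)) (W (p + 1 + l + 1)) (fun b => out e W x (p + 1 + l + 1) b ^ 2) := rfl
    rw [h1, h]
    rfl

theorem out_congr {R : Type*} [CommSemiring R] (e : ℕ → ℕ) (W : ℕ → ℕ → ℕ → R) (x x' : ℕ → R)
    (h : ∀ b, b < e 0 → x b = x' b) : ∀ l : ℕ, out e W x (l + 1) = out e W x' (l + 1)
  | 0 => by
    funext a
    rw [out, out, lay, lay]
    refine Finset.sum_congr rfl fun b hb => ?_
    rw [h b (Finset.mem_range.1 hb)]
  | l + 1 => by
    funext a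
    rw [out, out, out_congr e W x x' h l]

/-- the variables -/
noncomputable def yv (n : ℕ) (b : ℕ) : MvPolynomial (Fin n) ℂ := if h : b < n then X ⟨b, h⟩ else 0

theorem yv_hom (n b : ℕ) : (yv n b).IsHomogeneous 1 := by
  unfold yv
  split_ifs with h
  · exact isHomogeneous_X _ _
  · exact isHomogeneous_zero _ _ _

theorem hom_out (n : ℕ) (e : ℕ → ℕ) (W : ℕ → ℕ → ℕ → ℂ) : ∀ l a : ℕ,
    (out e (fun k a b => C (W k a b)) (yv n) (l + 1) a).IsHomogeneous (2 ^ l)
  | 0, a => by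
    rw [out, lay]
    refine IsHomogeneous.sum _ _ _ fun b _ => ?_
    rw [pow_zero]
    exact (yv_hom n b).C_mul _
  | l + 1, a => by
    rw [out, lay]
    refine IsHomogeneous.sum _ _ _ fun b _ => ?_
    have := (hom_out n e W l b).pow 2
    rw [pow_succ]
    exact this.C_mul _

theorem form_exp {n m : ℕ} (Q : MvPolynomial (Fin n) ℂ) (hQ : Q.IsHomogeneous m)
    (y : Fin n → MvPolynomial ℕ ℂ) :
    aeval y Q = ∑ γ : Ex n m, C (coeff (Finsupp.equivFunOnFinite.symm γ.1) Q) * ∏ j, y j ^ γ.1 j := by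
  classical
  rw [aeval_def, eval₂_eq', algebraMap_eq]
  have h1 : Q.support ⊆ (Finset.Nat.antidiagonalTuple n m).map
      Finsupp.equivFunOnFinite.symm.toEmbedding := by
    intro d hd
    rw [Finset.mem_map]
    refine ⟨d, ?_, ?_⟩
    · rw [Finset.Nat.mem_antidiagonalTuple]
      have h2 := hQ (mem_support_iff.1 hd)
      rw [Finsupp.weight_apply, Finsupp.sum_fintype _ _ (by simp)] at h2
      simpa using h2
    · exact Finsupp.equivFunOnFinite.symm_apply_apply d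
  rw [Finset.sum_subset h1]
  · rw [Finset.sum_map]
    rw [← Finset.sum_coe_sort]
    refine Finset.sum_congr rfl fun γ _ => ?_
    rfl
  · intro d _ hd
    rw [notMem_support_iff.1 hd, map_zero, zero_mul]

theorem out_eq_aeval (n : ℕ) (e : ℕ → ℕ) (he : e 0 ≤ n) (W : ℕ → ℕ → ℕ → ℂ)
    (y : ℕ → MvPolynomial ℕ ℂ) (l a : ℕ) :
    out e (fun k a b => C (W k a b)) y (l + 1) a =
      aeval (fun j : Fin n => y j) (out e (fun k a b => C (W k a b)) (yv n) (l + 1) a) := by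
  have h1 := out_map (aeval (fun j : Fin n => y j) : MvPolynomial (Fin n) ℂ →ₐ[ℂ] _).toRingHom e
    (fun k a b => C (W k a b)) (yv n) (l + 1) a
  have h2 : (aeval (fun j : Fin n => y j) : MvPolynomial (Fin n) ℂ →ₐ[ℂ] _).toRingHom
      (out e (fun k a b => C (W k a b)) (yv n) (l + 1) a) =
      aeval (fun j : Fin n => y j) (out e (fun k a b => C (W k a b)) (yv n) (l + 1) a) := rfl
  rw [← h2, h1]
  have h3 : (fun k a b => (aeval (fun j : Fin n => y j) : MvPolynomial (Fin n) ℂ →ₐ[ℂ] _).toRingHom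
      (C (W k a b))) = fun k a b => (C (W k a b) : MvPolynomial ℕ ℂ) := by
    funext k a b
    simp [algebraMap_eq]
  rw [h3]
  refine congrFun (out_congr _ _ _ _ ?_ l) a
  intro b hb
  have hb' : b < n := lt_of_lt_of_le hb he
  unfold yv
  rw [dif_pos hb']
  simp

theorem out_form (n : ℕ) (e : ℕ → ℕ) (he : e 0 ≤ n) (W : ℕ → ℕ → ℕ → ℂ)
    (y : ℕ → MvPolynomial ℕ ℂ) (l a : ℕ) :
    ∃ u : Ex n (2 ^ l) → ℂ, out e (fun k a b => C (W k a b)) y (l + 1) a =
      ∑ γ : Ex n (2 ^ l), C (u γ) * ∏ j : Fin n, y j ^ γ.1 j :=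
  ⟨_, (out_eq_aeval n e he W y l a).trans (form_exp _ (hom_out n e W l a) _)⟩

theorem Bin.eq_SS {m : ℕ} {F : MvPolynomial ℕ ℂ} (hF : Bin m F) :
    F = ∑ i : Fin (m + 1), C (coeff (mon m i) F) * monomial (mon m i) 1 := by
  conv_lhs => rw [hF.eq_sum]
  rw [Finset.sum_range]
  refine Finset.sum_congr rfl fun i _ => ?_
  rw [C_mul_monomial, mul_one]

theorem net_eq_FF (p l l' e1 e2 : ℕ) (e : ℕ → ℕ) (W : ℕ → ℕ → ℕ → ℂ) (h0 : e 0 ≤ 2)
    (h1 : e (p + 1) ≤ e1) (h2 : e (p + 1 + l + 1) ≤ e2) :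
    ∃ w : Par e1 e2 (2 ^ p) (2 ^ l) (2 ^ l') → ℂ,
      out e (fun k a b => C (W k a b)) (fun b => (X b : MvPolynomial ℕ ℂ))
        (p + 1 + l + 1 + l' + 1) 0 = FF w := by
  set x : ℕ → MvPolynomial ℕ ℂ := fun b => X b with hx
  set V : ℕ → ℕ → ℕ → MvPolynomial ℕ ℂ := fun k a b => C (W k a b) with hV
  choose u hu using fun a => out_form e1 (fun k => e (p + 1 + k)) h1 (fun k => W (p + 1 + k))
    (fun b => out e V x (p + 1) b ^ 2) l a
  obtain ⟨u', hu'⟩ := out_form e2 (fun k => e (p + 1 + l + 1 + k)) h2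
    (fun k => W (p + 1 + l + 1 + k)) (fun b => out e V x (p + 1 + l + 1) b ^ 2) l' 0
  let w : Par e1 e2 (2 ^ p) (2 ^ l) (2 ^ l') → ℂ := fun i => match i with
    | Sum.inl (j, i) => coeff (mon (2 ^ p) i) (out e V x (p + 1) j)
    | Sum.inr (Sum.inl (k, γ)) => u k γ
    | Sum.inr (Sum.inr β) => u' β
  refine ⟨w, ?_⟩
  have hS : ∀ j : Fin e1, SS w j = out e V x (p + 1) j := by
    intro j
    unfold SS
    exact ((bin_out e h0 W p j).eq_SS).symm
  have hG : ∀ k : Fin e2, GG w k = out e V x (p + 1 + l + 1) k := by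
    intro k
    unfold GG
    rw [out_comp e V x p l, hV]
    dsimp only
    rw [hu k]
    refine Finset.sum_congr rfl fun γ _ => ?_
    simp only [hS]
    rfl
  unfold FF
  have h3 := out_comp e V x (p + 1 + l) l'
  rw [h3, hV]
  dsimp only
  rw [hu']
  refine Finset.sum_congr rfl fun β _ => ?_
  simp only [hG]
  rfl

end Pool.Agent.N95.UN
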