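import Pool.Agent.N95.UN.Net
import Pool.Agent.N95.UN.Comp

/-!
# Correctness of the computation
-/

set_option autoImplicit false

namespace Pool.Agent.N95.UN

open MvPolynomial

/-- the dual number `u + u' ε` -/
def toD (u : ℕ × ℕ) : DualNumber ℕ := TrivSqZeroExt.inl u.1 + TrivSqZeroExt.inr u.2

/-- the weight with packed direction -/
def toW (B : ℕ) (u : ℕ × ℕ) : DualNumber ℕ := toD (u.1, spr B 65 u.2)

theorem toD_fst (u : ℕ × ℕ) : (toD u).fst = u.1 := by
  unfold toD
  rw [TrivSqZeroExt.fst_add, TrivSqZeroExt.fst_inl, TrivSqZeroExt.fst_inr, add_zero]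

theorem toD_snd (u : ℕ × ℕ) : (toD u).snd = u.2 := by
  unfold toD
  rw [TrivSqZeroExt.snd_add, TrivSqZeroExt.snd_inl, TrivSqZeroExt.snd_inr, zero_add]

theorem toD_zero : toD (0, 0) = 0 := by
  apply TrivSqZeroExt.ext
  · rw [toD_fst]; rfl
  · rw [toD_snd]; rfl

theorem toD_mul (u v : ℕ × ℕ) : toD u * toD v = toD (u.1 * v.1, u.1 * v.2 + v.1 * u.2) := by
  apply TrivSqZeroExt.ext
  · rw [TrivSqZeroExt.fst_mul, toD_fst, toD_fst, toD_fst]
  · rw [TrivSqZeroExt.snd_mul, toD_fst, toD_fst, toD_snd, toD_snd, toD_snd, op_smul_eq_smul,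
      smul_eq_mul, smul_eq_mul]

theorem toD_add (u v : ℕ × ℕ) : toD u + toD v = toD (u.1 + v.1, u.2 + v.2) := by
  apply TrivSqZeroExt.ext
  · rw [TrivSqZeroExt.fst_add, toD_fst, toD_fst, toD_fst]
  · rw [TrivSqZeroExt.snd_add, toD_snd, toD_snd, toD_snd]

theorem toW_zero (B : ℕ) : toW B (0, 0) = 0 := by
  have : spr B 65 0 = 0 := by
    have : ∀ n, spr B n 0 = 0 := by
      intro n
      induction n with
      | zero => rfl
      | succ n ih => simp [spr, ih]
    exact this 65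
  rw [toW, this, toD_zero]

theorem toW_mul_toD (B w x u u' s s' : ℕ) :
    toW B (w, x) * toD (u, u') + toD (s, s') = toD (w * u + s, w * u' + spr B 65 x * u + s') := by
  unfold toW
  rw [toD_mul, toD_add]
  dsimp only
  rw [mul_comm u (spr B 65 x)]

theorem dotp_eq (B : ℕ) : ∀ (r z : List (ℕ × ℕ)), toD (dotp B r z) =
    ∑ b ∈ Finset.range z.length, toW B (r.getD b (0, 0)) * toD (z.getD b (0, 0))
  | [], z => by
    rw [show dotp B [] z = (0, 0) by cases z <;> rfl, toD_zero]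
    symm
    apply Finset.sum_eq_zero
    intro b _
    simp [toW_zero]
  | (w, x) :: r, [] => by
    rw [show dotp B ((w, x) :: r) [] = (0, 0) from rfl, toD_zero]
    simp
  | (w, x) :: r, (u, u') :: z => by
    rw [List.length_cons, Finset.sum_range_succ']
    simp only [List.getD_cons_succ, List.getD_cons_zero]
    rw [← dotp_eq B r z, add_comm, toW_mul_toD]
    rfl

theorem layC_eq (B : ℕ) (rows : List (List (ℕ × ℕ))) (z : List (ℕ × ℕ)) (h : ℕ → DualNumber ℕ)
    (hh : ∀ b, h b = toD (z.getD b (0, 0))) (a : ℕ) :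
    lay z.length (fun a b => toW B ((rows.getD a []).getD b (0, 0))) h a =
      toD ((layC B rows z).getD a (0, 0)) := by
  have h1 : (layC B rows z).getD a (0, 0) = dotp B (rows.getD a []) z := by
    unfold layC
    have : dotp B [] z = (0, 0) := by cases z <;> rfl
    rw [← this, List.getD_map]
  rw [h1, dotp_eq]
  unfold lay
  simp only [hh]

theorem sqC_eq (z : List (ℕ × ℕ)) (b : ℕ) :
    toD ((sqC z).getD b (0, 0)) = toD (z.getD b (0, 0)) ^ 2 := by
  have h1 : (sqC z).getD b (0, 0) = (fun u : ℕ × ℕ => (u.1 * u.1, 2 * u.1 * u.2)) (z.getD b (0, 0)) :=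
    List.getD_map z (0, 0) (fun u : ℕ × ℕ => (u.1 * u.1, 2 * u.1 * u.2))
  rw [h1]
  generalize z.getD b (0, 0) = u
  rw [pow_two, toD_mul]
  dsimp only
  rw [show 2 * u.1 * u.2 = u.1 * u.2 + u.1 * u.2 by ring]

/-- base point -/
def w0 (k a b : ℕ) : ℕ := (((wts.getD k []).getD a []).getD b (0, 0)).1

/-- directions -/
def vv (k a b j : ℕ) : ℕ := (((wts.getD k []).getD a []).getD b (0, 0)).2 / 16 ^ j % 16

theorem spr_eq (B : ℕ) : ∀ n x : ℕ, spr B n x = ∑ j ∈ Finset.range n, x / 16 ^ j % 16 * B ^ j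
  | 0, x => by simp [spr]
  | n + 1, x => by
    rw [spr, spr_eq B n, Finset.sum_range_succ', Finset.mul_sum, add_comm]
    congr 1
    · refine Finset.sum_congr rfl fun j _ => ?_
      rw [Nat.div_div_eq_div_mul, ← pow_succ', pow_succ B]
      ring
    · simp

/-- the widths -/
def ww : ℕ → ℕ := fun k => [2, 3, 4, 5, 4, 6, 4, 1].getD k 0

theorem zc_length (B T : ℕ) : ∀ k, k < 7 → (zc B T k).length = ww k := by
  intro k hk
  interval_cases k <;> rfl

theorem out_eq_zc (B T : ℕ) (x : ℕ → DualNumber ℕ)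
    (hx : ∀ b, x b = toD (([(T, 0), (1, 0)] : List (ℕ × ℕ)).getD b (0, 0))) : ∀ k, k ≤ 7 → ∀ a,
    out ww (fun k a b => toW B (((wts.getD k []).getD a []).getD b (0, 0))) x k a =
      toD ((zc B T k).getD a (0, 0))
  | 0, _, a => by rw [out, zc]; exact hx a
  | 1, _, a => by
    rw [out, zc]
    exact layC_eq B _ [(T, 0), (1, 0)] x hx a
  | k + 2, hk, a => by
    rw [out, zc]
    have h1 := out_eq_zc B T x hx (k + 1) (by omega)
    have h2 : ww (k + 1) = (sqC (zc B T (k + 1))).length := by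
      rw [sqC, List.length_map, zc_length B T (k + 1) (by omega)]
    rw [h2]
    refine layC_eq B _ (sqC (zc B T (k + 1))) _ ?_ a
    intro b
    rw [sqC_eq, h1]

end Pool.Agent.N95.UN
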