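import Pool.Agent.N95.UN.Gen

/-!
# The network with widths `2, 3, 4, 5, 4, 6, 4, 1` is filling
-/

set_option autoImplicit false

namespace Pool.Agent.N95.UN

open MvPolynomial

/-- the filling property of the frozen statement for `L = 7`, `r = 2` -/
def Fill (e : Fin (7 + 1) → ℕ) : Prop :=
  ∀ P : MvPolynomial (ℕ × (ℕ →₀ ℕ)) ℂ,
      (∀ W : Fin 7 → ℕ → ℕ → ℂ,
        MvPolynomial.eval (fun p : ℕ × (ℕ →₀ ℕ) => MvPolynomial.coeff p.2
          ((List.finRange 7).foldl
            (fun (h : ℕ → MvPolynomial ℕ ℂ) (k : Fin 7) (a : ℕ) =>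
              ∑ b ∈ Finset.range (e k.castSucc),
                MvPolynomial.C (W k a b) * h b ^ (if (k : ℕ) = 0 then 1 else 2))
            (fun b : ℕ => (MvPolynomial.X b : MvPolynomial ℕ ℂ)) p.1)) P = 0) →
      ∀ c : ℕ × (ℕ →₀ ℕ) → ℂ,
        (∀ p : ℕ × (ℕ →₀ ℕ), c p ≠ 0 →
          p.1 < e (Fin.last 7) ∧ (∑ b ∈ p.2.support, p.2 b) = 2 ^ (7 - 1) ∧
            ∀ b ∈ p.2.support, b < e 0) →
        MvPolynomial.eval c P = 0

/-- the coordinates of the ambient space -/
noncomputable def theta (q : ℕ × (ℕ →₀ ℕ)) : MvPolynomial (Fin 65) ℂ := by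
  classical
  exact ∑ m : Fin 65, if q = (0, mon 64 m) then X m else 0

theorem aeval_theta (v : Fin 65 → ℂ) (m : Fin 65) : aeval v (theta (0, mon 64 m)) = v m := by
  classical
  unfold theta
  rw [map_sum, Finset.sum_eq_single m]
  · rw [if_pos rfl, aeval_X]
  · intro i _ hi
    rw [if_neg, map_zero]
    intro h
    have h1 := mon_injective 64 (Prod.ext_iff.1 h).2
    exact hi (Fin.ext h1.symm)
  · simp

theorem aeval_theta_of_not (v : Fin 65 → ℂ) (q : ℕ × (ℕ →₀ ℕ))
    (h : ∀ m : Fin 65, q ≠ (0, mon 64 m)) : aeval v (theta q) = 0 := by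
  classical
  unfold theta
  rw [map_sum]
  apply Finset.sum_eq_zero
  intro m _
  rw [if_neg (h m), map_zero]

/-- a point of the ambient space is determined by `65` coordinates -/
theorem eq_theta (n : ℕ) (c : ℕ × (ℕ →₀ ℕ) → ℂ) (hc : ∀ p : ℕ × (ℕ →₀ ℕ), c p ≠ 0 →
      p.1 < 1 ∧ (∑ b ∈ p.2.support, p.2 b) = 2 ^ (7 - 1) ∧ ∀ b ∈ p.2.support, b < 2) :
    c = fun q => aeval (fun m : Fin 65 => c (0, mon 64 m)) (theta q) := by
  funext q
  by_cases h : ∃ m : Fin 65, q = (0, mon 64 m)
  · obtain ⟨m, rfl⟩ := h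
    rw [aeval_theta]
  · rw [aeval_theta_of_not _ _ (fun m hm => h ⟨m, hm⟩)]
    by_contra hne
    obtain ⟨h1, h2, h3⟩ := hc q hne
    apply h
    have h4 : q.2 0 + q.2 1 = 64 := by
      rw [show (2 : ℕ) ^ (7 - 1) = 64 by norm_num] at h2
      rw [← h2, show q.2 0 + q.2 1 = ∑ b ∈ Finset.range 2, q.2 b by simp [Finset.sum_range_succ]]
      symm
      apply Finset.sum_subset
      · intro b hb
        exact Finset.mem_range.2 (h3 b hb)
      · intro b _ hb
        exact Finsupp.notMem_support_iff.1 hb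
    refine ⟨⟨q.2 0, by omega⟩, ?_⟩
    apply Prod.ext
    · simpa using Nat.lt_one_iff.1 h1
    · ext b
      rcases Nat.lt_or_ge b 2 with hb | hb
      · interval_cases b
        · simp [mon_zero]
        · simp only [mon_one]
          omega
      · simp only [mon_ne _ _ _ hb]
        by_contra hne'
        have := h3 b (Finsupp.mem_support_iff.2 hne')
        omega

/-- the weights of the family -/
noncomputable def Ws (s : Fin 65 → ℂ) (k a b : ℕ) : ℂ :=
  eval₂Hom (Nat.castRingHom ℂ) s (Wg k a b)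

theorem out_Ws (s : Fin 65 → ℂ) :
    out ww (fun k a b => C (Ws s k a b)) (fun b => (X b : MvPolynomial ℕ ℂ)) 7 0 =
      map (eval₂Hom (Nat.castRingHom ℂ) s) Fg := by
  unfold Fg
  rw [out_map]
  congr 1
  · funext k a b
    rw [map_C]
    rfl
  · funext b
    rw [map_X]

theorem Wg_six (a b : ℕ) (ha : 1 ≤ a) : Wg 6 a b = 0 := by
  have h1 : ((wts.getD 6 []).getD a []) = [] := by
    apply List.getD_eq_default
    exact ha
  unfold Wg w0 vv
  rw [h1]
  simp

theorem out_Ws_pos (s : Fin 65 → ℂ) (a : ℕ) (ha : 1 ≤ a) :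
    out ww (fun k a b => C (Ws s k a b)) (fun b => (X b : MvPolynomial ℕ ℂ)) 7 a = 0 := by
  rw [out, lay]
  apply Finset.sum_eq_zero
  intro b _
  rw [Ws, Wg_six a b ha, map_zero, map_zero, zero_mul]

theorem eval_NC (s : Fin 65 → ℂ) (m : Fin 65) :
    eval s (NC m) = eval₂Hom (Nat.castRingHom ℂ) s (Nn m) := by
  unfold NC
  rw [eval_map]
  rfl

theorem point_eq (s : Fin 65 → ℂ) :
    (fun p : ℕ × (ℕ →₀ ℕ) => coeff p.2
      (out ww (fun k a b => C (Ws s k a b)) (fun b => (X b : MvPolynomial ℕ ℂ)) 7 p.1)) =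
    fun q => aeval (fun m => eval s (NC m)) (theta q) := by
  funext q
  obtain ⟨a, μ⟩ := q
  by_cases h : ∃ m : Fin 65, (a, μ) = (0, mon 64 m)
  · obtain ⟨m, hm⟩ := h
    rw [hm, aeval_theta]
    simp only
    rw [out_Ws, coeff_map, eval_NC]
    rfl
  · rw [aeval_theta_of_not _ _ (fun m hm => h ⟨m, hm⟩)]
    simp only
    rcases Nat.eq_zero_or_pos a with ha | ha
    · subst ha
      rw [out_Ws, coeff_map]
      have h1 : coeff μ Fg = 0 := by
        by_contra hne
        obtain ⟨i, hi, hμ⟩ := bin_Fg μ (mem_support_iff.2 hne)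
        exact h ⟨⟨i, by omega⟩, by rw [hμ]⟩
      rw [h1, map_zero]
    · rw [out_Ws_pos s a ha, coeff_zero]

/-- the widths of the counterexample -/
def dd : Fin (7 + 1) → ℕ := ![2, 3, 4, 5, 4, 6, 4, 1]

theorem fill_dd : Fill dd := by
  intro P hP c hc
  have hG : aeval theta P = 0 := by
    apply eq_zero_of_aeval_NC
    apply MvPolynomial.funext
    intro s
    have h1 := hP (fun k a b => Ws s k a b)
    rw [fold_eq dd ww (by decide) _ (Ws s) (fun k => rfl), point_eq] at h1
    rw [map_zero, ← h1]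
    have h2 : aeval NC (aeval theta P) = aeval (fun q => aeval NC (theta q)) P := by
      have := aeval_bind₁ (R := ℂ) NC theta P
      exact this
    rw [h2]
    have h3 : eval s (aeval (fun q => aeval NC (theta q)) P) =
        eval (fun q => eval s (aeval NC (theta q))) P := by
      have := aeval_bind₁ (R := ℂ) s (fun q => aeval NC (theta q)) P
      exact this
    rw [h3]
    congr 2
    funext q
    have := aeval_bind₁ (R := ℂ) s NC (theta q)
    exact this
  rw [eq_theta 0 c hc]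
  have h4 := aeval_bind₁ (R := ℂ) (fun m : Fin 65 => c (0, mon 64 m)) theta P
  have h5 : (bind₁ theta) P = 0 := hG
  rw [h5, map_zero] at h4
  exact h4.symm

end Pool.Agent.N95.UN
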