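import Pool.Agent.N95.UN.Conn

/-!
# The smaller networks are not filling
-/

set_option autoImplicit false

namespace Pool.Agent.N95.UN

open MvPolynomial

theorem not_fill_of_vanish (e : Fin (7 + 1) → ℕ) (he0 : e 0 = 2) (he7 : e (Fin.last 7) = 1)
    (e' : ℕ → ℕ) (he : ∀ k : Fin 7, e k.castSucc = e' k)
    (G : MvPolynomial (Fin 65) ℂ) (hG : G ≠ 0)
    (hv : ∀ W : ℕ → ℕ → ℕ → ℂ, eval (fun m : Fin 65 => coeff (mon 64 m)
      (out e' (fun k a b => C (W k a b)) (fun b => (X b : MvPolynomial ℕ ℂ)) 7 0)) G = 0) :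
    ¬ Fill e := by
  classical
  intro hf
  obtain ⟨v, hv'⟩ : ∃ v : Fin 65 → ℂ, eval v G ≠ 0 := by
    by_contra hcon
    push Not at hcon
    exact hG (MvPolynomial.funext fun v => by rw [hcon v, map_zero])
  apply hv'
  have h1 := hf (rename (fun m : Fin 65 => ((0 : ℕ), mon 64 m)) G) (by
    intro W
    rw [eval_rename]
    have h2 := fold_eq e e' he W (fun k => if h : k < 7 then W ⟨k, h⟩ else 0) (by
      intro k
      rw [dif_pos k.2])
    have h3 := hv (fun k => if h : k < 7 then W ⟨k, h⟩ else 0)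
    rw [h2]
    exact h3) (fun q => if h : ∃ m : Fin 65, q = (0, mon 64 m) then v h.choose else 0) (by
    intro q hq
    by_cases h : ∃ m : Fin 65, q = (0, mon 64 m)
    · obtain ⟨m, rfl⟩ := h
      have hs : (mon 64 m).support ⊆ Finset.range 2 := by
        intro b hb
        rw [Finset.mem_range]
        by_contra hlt
        exact Finsupp.mem_support_iff.1 hb (mon_ne _ _ _ (not_lt.1 hlt))
      refine ⟨?_, ?_, ?_⟩
      · rw [he7]; exact Nat.one_pos
      · rw [Finset.sum_subset hs]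
        · simp [Finset.sum_range_succ, mon_zero, mon_one]
          omega
        · intro b _ hb
          exact Finsupp.notMem_support_iff.1 hb
      · intro b hb
        rw [he0]
        exact Finset.mem_range.1 (hs hb)
    · exact absurd (dif_neg h) hq)
  rw [eval_rename] at h1
  refine Eq.trans (congrArg (fun f => eval f G) (funext fun m => ?_)) h1
  have h : ∃ m' : Fin 65, (((0 : ℕ), mon 64 m) : ℕ × (ℕ →₀ ℕ)) = (0, mon 64 m') := ⟨m, rfl⟩
  simp only [Function.comp_apply]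
  rw [dif_pos h]
  congr 1
  have h2 := h.choose_spec
  exact Fin.ext (mon_injective 64 (Prod.ext_iff.1 h2).2)

theorem card_Par' {e1 e2 m1 m2 m3 : ℕ} (γ0 : Ex e1 m2) :
    Fintype.card (Par' e1 e2 m1 m2 m3 γ0) = e1 * m1 +
      (e2 * ((Finset.Nat.antidiagonalTuple e1 m2).card - 1) +
        (Finset.Nat.antidiagonalTuple e2 m3).card) := by
  classical
  rw [Fintype.card_sum, Fintype.card_sum, Fintype.card_prod, Fintype.card_prod, Fintype.card_fin,
    Fintype.card_fin, Fintype.card_fin, Fintype.card_coe]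
  congr 3
  have h := Fintype.card_subtype_compl (fun γ : Ex e1 m2 => γ = γ0)
  rw [Fintype.card_coe, Fintype.card_subtype_eq] at h
  convert h using 1

theorem not_fill_case (p l l' e1 e2 : ℕ) (hpl : p + 1 + l + 1 + l' + 1 = 7)
    (γ0 : Ex e1 (2 ^ l))
    (hcard : e1 * 2 ^ p + (e2 * ((Finset.Nat.antidiagonalTuple e1 (2 ^ l)).card - 1) +
        (Finset.Nat.antidiagonalTuple e2 (2 ^ l')).card) < 65)
    (e : Fin (7 + 1) → ℕ) (he0 : e 0 = 2) (he7 : e (Fin.last 7) = 1)
    (h1 : ∀ k : Fin (7 + 1), (k : ℕ) = p + 1 → e k ≤ e1)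
    (h2 : ∀ k : Fin (7 + 1), (k : ℕ) = p + 1 + l + 1 → e k ≤ e2) : ¬ Fill e := by
  obtain ⟨G, hG0, hG⟩ := exists_vanish (e1 := e1) (e2 := e2) (m1 := 2 ^ p) (m2 := 2 ^ l)
    (m3 := 2 ^ l') γ0 (by rw [card_Par']; exact hcard)
  refine not_fill_of_vanish e he0 he7 (fun k => if h : k < 8 then e ⟨k, h⟩ else 0) ?_ G hG0 ?_
  · intro k
    rw [dif_pos (by omega)]
    rfl
  · intro W
    obtain ⟨w, hw⟩ := net_eq_FF p l l' e1 e2 (fun k => if h : k < 8 then e ⟨k, h⟩ else 0) W
      (by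
        rw [dif_pos (by omega)]
        exact he0.le)
      (by
        rw [dif_pos (by omega)]
        exact h1 _ rfl)
      (by
        rw [dif_pos (by omega)]
        exact h2 _ rfl)
    have key : ∀ n, p + 1 + l + 1 + l' + 1 = n →
        out (fun k => if h : k < 8 then e ⟨k, h⟩ else 0) (fun k a b => C (W k a b))
          (fun b => (X b : MvPolynomial ℕ ℂ)) n 0 = FF w := by
      intro n hn
      subst hn
      exact hw
    rw [key 7 hpl]
    exact hG w

theorem minimal_dd (d' : Fin (7 + 1) → ℕ) (h0 : d' 0 = dd 0)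
    (h7 : d' (Fin.last 7) = dd (Fin.last 7)) (hle : d' ≤ dd) (hf : Fill d') : d' = dd := by
  have e0 : d' 0 = 2 := h0
  have e7 : d' (Fin.last 7) = 1 := h7
  have l1 : d' 1 ≤ 3 := hle 1
  have l2 : d' 2 ≤ 4 := hle 2
  have l3 : d' 3 ≤ 5 := hle 3
  have l4 : d' 4 ≤ 4 := hle 4
  have l5 : d' 5 ≤ 6 := hle 5
  have l6 : d' 6 ≤ 4 := hle 6
  have c1 : ¬ d' 1 ≤ 2 := fun h =>
    not_fill_case 0 2 2 2 4 rfl ⟨![4, 0], by decide⟩ (by decide) d' e0 e7
      (fun k hk => by rw [show k = 1 from Fin.ext hk]; exact h)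
      (fun k hk => by rw [show k = 4 from Fin.ext hk]; exact l4) hf
  have c2 : ¬ d' 2 ≤ 3 := fun h =>
    not_fill_case 1 1 2 3 4 rfl ⟨![2, 0, 0], by decide⟩ (by decide) d' e0 e7
      (fun k hk => by rw [show k = 2 from Fin.ext hk]; exact h)
      (fun k hk => by rw [show k = 4 from Fin.ext hk]; exact l4) hf
  have c3 : ¬ d' 3 ≤ 4 := fun h =>
    not_fill_case 2 0 2 4 4 rfl ⟨![1, 0, 0, 0], by decide⟩ (by decide) d' e0 e7
      (fun k hk => by rw [show k = 3 from Fin.ext hk]; exact h)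
      (fun k hk => by rw [show k = 4 from Fin.ext hk]; exact l4) hf
  have c4 : ¬ d' 4 ≤ 3 := fun h =>
    not_fill_case 1 1 2 4 3 rfl ⟨![2, 0, 0, 0], by decide⟩ (by decide) d' e0 e7
      (fun k hk => by rw [show k = 2 from Fin.ext hk]; exact l2)
      (fun k hk => by rw [show k = 4 from Fin.ext hk]; exact h) hf
  have c5 : ¬ d' 5 ≤ 5 := fun h =>
    not_fill_case 3 0 1 4 5 rfl ⟨![1, 0, 0, 0], by decide⟩ (by decide) d' e0 e7
      (fun k hk => by rw [show k = 4 from Fin.ext hk]; exact l4)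
      (fun k hk => by rw [show k = 5 from Fin.ext hk]; exact h) hf
  have c6 : ¬ d' 6 ≤ 3 := fun h =>
    not_fill_case 3 1 0 4 3 rfl ⟨![2, 0, 0, 0], by decide⟩ (by decide) d' e0 e7
      (fun k hk => by rw [show k = 4 from Fin.ext hk]; exact l4)
      (fun k hk => by rw [show k = 6 from Fin.ext hk]; exact h) hf
  funext k
  fin_cases k
  · exact h0
  · change d' 1 = 3; omega
  · change d' 2 = 4; omega
  · change d' 3 = 5; omega
  · change d' 4 = 4; omega
  · change d' 5 = 6; omega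
  · change d' 6 = 4; omega
  · exact h7

end Pool.Agent.N95.UN
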