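import Pool.Agent.N95.UN.Dual
import Pool.Agent.N95.UN.AlgInd

/-!
# The linear parts of the coefficients of the generic network
-/

set_option autoImplicit false

namespace Pool.Agent.N95.UN

open MvPolynomial

section digits

theorem chkRow_spec (B p m : ℕ) (hB : 0 < B) : ∀ (n j z : ℕ) (f : ℕ → ℕ),
    z = ∑ i ∈ Finset.range n, f (j + i) * B ^ i → (∀ i, i < n → f (j + i) < B) →
    chkRow B p m n j z = true → ∀ i, i < n → f (j + i) % p = if j + i = m then 1 else 0
  | 0, j, z, f, _, _, _, i, hi => absurd hi (by omega)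
  | n + 1, j, z, f, hz, hf, hc, i, hi => by
    rw [Finset.sum_range_succ'] at hz
    simp only [pow_zero, mul_one, add_zero] at hz
    have h1 : ∑ k ∈ Finset.range n, f (j + (k + 1)) * B ^ (k + 1) =
        B * ∑ k ∈ Finset.range n, f (j + 1 + k) * B ^ k := by
      rw [Finset.mul_sum]
      refine Finset.sum_congr rfl fun k _ => ?_
      rw [show j + (k + 1) = j + 1 + k by ring]
      ring
    rw [h1] at hz
    have hj : f j < B := hf 0 (by omega)
    have hmod : z % B = f j := by
      rw [hz, Nat.mul_add_mod, Nat.mod_eq_of_lt hj]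
    have hdiv : z / B = ∑ k ∈ Finset.range n, f (j + 1 + k) * B ^ k := by
      rw [hz, Nat.mul_add_div hB, Nat.div_eq_of_lt hj, add_zero]
    rw [chkRow, Bool.and_eq_true, hmod, beq_iff_eq] at hc
    cases i with
    | zero => exact hc.1
    | succ i =>
      have := chkRow_spec B p m hB n (j + 1) (z / B) f hdiv
        (fun i hi => by
          have := hf (i + 1) (by omega)
          rwa [show j + (i + 1) = j + 1 + i by ring] at this) hc.2 i (by omega)
      rwa [show j + (i + 1) = j + 1 + i by ring]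

theorem sum_lt_pow (B : ℕ) (hB : 0 < B) (f : ℕ → ℕ) : ∀ n, (∀ i, i < n → f i < B) →
    ∑ i ∈ Finset.range n, f i * B ^ i < B ^ n
  | 0, _ => by simp
  | n + 1, h => by
    rw [Finset.sum_range_succ]
    have h1 := sum_lt_pow B hB f n fun i hi => h i (by omega)
    have h2 : f n + 1 ≤ B := h n (by omega)
    calc _ < B ^ n + f n * B ^ n := by omega
      _ = (f n + 1) * B ^ n := by ring
      _ ≤ B * B ^ n := Nat.mul_le_mul_right _ h2
      _ = B ^ (n + 1) := by ring

theorem chkAll_spec (B p : ℕ) (hB : 0 < B) (g : ℕ → ℕ → ℕ) (hg : ∀ m j, j < 65 → g m j < B) :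
    ∀ (n m z : ℕ),
    z = ∑ i ∈ Finset.range n, (∑ j ∈ Finset.range 65, g (m + i) j * B ^ j) * (B ^ 65) ^ i →
    chkAll B (B ^ 65) p n m z = true → ∀ i, i < n → ∀ j, j < 65 →
      g (m + i) j % p = if j = m + i then 1 else 0
  | 0, m, z, _, _, i, hi => absurd hi (by omega)
  | n + 1, m, z, hz, hc, i, hi => by
    intro j hj
    rw [Finset.sum_range_succ'] at hz
    simp only [pow_zero, mul_one, add_zero] at hz
    have h1 : ∑ k ∈ Finset.range n, (∑ j ∈ Finset.range 65, g (m + (k + 1)) j * B ^ j) *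
        (B ^ 65) ^ (k + 1) =
        B ^ 65 * ∑ k ∈ Finset.range n, (∑ j ∈ Finset.range 65, g (m + 1 + k) j * B ^ j) *
          (B ^ 65) ^ k := by
      rw [Finset.mul_sum]
      refine Finset.sum_congr rfl fun k _ => ?_
      rw [show m + (k + 1) = m + 1 + k by ring, pow_succ]
      ring
    rw [h1] at hz
    have hlt : ∑ j ∈ Finset.range 65, g m j * B ^ j < B ^ 65 :=
      sum_lt_pow B hB (g m) 65 fun i hi => hg m i hi
    have hT : 0 < B ^ 65 := pow_pos hB _
    have hmod : z % B ^ 65 = ∑ j ∈ Finset.range 65, g m j * B ^ j := by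
      rw [hz, Nat.mul_add_mod, Nat.mod_eq_of_lt hlt]
    have hdiv : z / B ^ 65 = ∑ k ∈ Finset.range n,
        (∑ j ∈ Finset.range 65, g (m + 1 + k) j * B ^ j) * (B ^ 65) ^ k := by
      rw [hz, Nat.mul_add_div hT, Nat.div_eq_of_lt hlt, add_zero]
    rw [chkAll, Bool.and_eq_true, hmod] at hc
    cases i with
    | zero =>
      have := chkRow_spec B p m hB 65 0 _ (g m) (by simp only [zero_add])
        (fun i hi => by simpa using hg m i hi) hc.1 j hj
      simpa using this
    | succ i =>
      have := chkAll_spec B p hB g hg n (m + 1) (z / B ^ 65) hdiv hc.2 i (by omega) j hj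
      rwa [show m + (i + 1) = m + 1 + i by ring]

end digits

/-- the generic weights -/
noncomputable def Wg (k a b : ℕ) : MvPolynomial (Fin 65) ℕ :=
  C (w0 k a b) + ∑ j : Fin 65, C (vv k a b j) * X j

/-- the generic network -/
noncomputable def Fg : MvPolynomial ℕ (MvPolynomial (Fin 65) ℕ) :=
  out ww (fun k a b => C (Wg k a b)) (fun b => X b) 7 0

/-- its coefficients -/
noncomputable def Nn (m : ℕ) : MvPolynomial (Fin 65) ℕ := coeff (mon 64 m) Fg

/-- their linear parts -/
noncomputable def ll (m : ℕ) (j : ℕ) : ℕ :=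
  if h : j < 65 then coeff (Finsupp.single (⟨j, h⟩ : Fin 65) 1) (Nn m) else 0

theorem ll_fin (m : ℕ) (j : Fin 65) : ll m j = coeff (Finsupp.single j 1) (Nn m) := by
  unfold ll
  rw [dif_pos j.2]

/-- the truncation -/
noncomputable def phi (B : ℕ) : MvPolynomial (Fin 65) ℕ →+* DualNumber ℕ :=
  eval₂Hom (TrivSqZeroExt.inlHom ℕ ℕ) fun j => TrivSqZeroExt.inr (B ^ (j : ℕ))

theorem phi_fst (B : ℕ) (q : MvPolynomial (Fin 65) ℕ) : (phi B q).fst = coeff 0 q := by
  induction q using MvPolynomial.induction_on with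
  | C a =>
    rw [phi, coe_eval₂Hom, eval₂_C, TrivSqZeroExt.inlHom_apply, TrivSqZeroExt.fst_inl, coeff_C,
      if_pos rfl]
  | add p q hp hq => rw [map_add, TrivSqZeroExt.fst_add, hp, hq, coeff_add]
  | mul_X p n hp =>
    rw [map_mul, TrivSqZeroExt.fst_mul, phi, coe_eval₂Hom, eval₂_X, TrivSqZeroExt.fst_inr, mul_zero,
      coeff_mul_X', if_neg]
    simp

theorem phi_snd (B : ℕ) (q : MvPolynomial (Fin 65) ℕ) :
    (phi B q).snd = ∑ j : Fin 65, coeff (Finsupp.single j 1) q * B ^ (j : ℕ) := by
  induction q using MvPolynomial.induction_on with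
  | C a =>
    rw [phi, coe_eval₂Hom, eval₂_C]
    symm
    rw [TrivSqZeroExt.inlHom_apply, TrivSqZeroExt.snd_inl]
    apply Finset.sum_eq_zero
    intro j _
    rw [coeff_C, if_neg, zero_mul]
    intro h
    have := DFunLike.congr_fun h j
    simp at this
  | add p q hp hq =>
    rw [map_add, TrivSqZeroExt.snd_add, hp, hq]
    simp only [coeff_add, add_mul, Finset.sum_add_distrib]
  | mul_X p n hp =>
    rw [map_mul, TrivSqZeroExt.snd_mul, phi_fst]
    have h1 : phi B (X n) = TrivSqZeroExt.inr (B ^ (n : ℕ)) := by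
      rw [phi, coe_eval₂Hom, eval₂_X]
    rw [h1, TrivSqZeroExt.fst_inr, TrivSqZeroExt.snd_inr, MulOpposite.op_zero, zero_smul, add_zero,
      Finset.sum_eq_single n]
    · rw [coeff_mul_X']
      simp
    · intro j _ hj
      rw [coeff_mul_X', if_neg, zero_mul]
      rw [Finsupp.mem_support_iff, Finsupp.single_apply, if_neg hj]
      exact fun h => h rfl
    · simp

theorem phi_Wg (B k a b : ℕ) :
    phi B (Wg k a b) = toW B (((wts.getD k []).getD a []).getD b (0, 0)) := by
  have h0 : coeff 0 (Wg k a b) = w0 k a b := by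
    unfold Wg
    rw [coeff_add, coeff_C, if_pos rfl, coeff_sum, Finset.sum_eq_zero, add_zero]
    intro j _
    rw [coeff_C_mul, coeff_zero_X, mul_zero]
  have h1 : ∀ j : Fin 65, coeff (Finsupp.single j 1) (Wg k a b) = vv k a b j := by
    intro j
    unfold Wg
    rw [coeff_add, coeff_C, if_neg, zero_add, coeff_sum, Finset.sum_eq_single j]
    · rw [coeff_C_mul, coeff_X, if_pos rfl, mul_one]
    · intro i _ hi
      rw [coeff_C_mul, coeff_X, if_neg, mul_zero]
      intro h
      exact hi (Finsupp.single_left_injective one_ne_zero h)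
    · simp
    · intro h
      have := DFunLike.congr_fun h j
      simp at this
  apply TrivSqZeroExt.ext
  · rw [phi_fst, toW, toD_fst, h0, w0]
  · rw [phi_snd, toW, toD_snd]
    dsimp only
    rw [spr_eq, Finset.sum_range]
    simp only [h1]
    unfold vv
    exact Eq.refl _

theorem ww_zero : ww 0 ≤ 2 := le_rfl

theorem bin_Fg : Bin 64 Fg := by
  have h : ∀ D, D = 2 ^ 6 → Bin D Fg := by
    intro D hD
    rw [hD]
    exact bin_out ww ww_zero Wg 6 0
  exact h 64 (by norm_num)

theorem final_eq (B T : ℕ) :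
    final B T = ∑ m ∈ Finset.range 65, (∑ j ∈ Finset.range 65, ll m j * B ^ j) * T ^ m := by
  set x : ℕ → DualNumber ℕ := fun b => toD (([(T, 0), (1, 0)] : List (ℕ × ℕ)).getD b (0, 0)) with hx
  have h1 := out_eq_zc B T x (fun b => rfl) 7 le_rfl 0
  have h2 : eval₂Hom (phi B) x Fg =
      out ww (fun k a b => toW B (((wts.getD k []).getD a []).getD b (0, 0))) x 7 0 := by
    unfold Fg
    rw [out_map]
    congr 1
    · funext k a b
      rw [coe_eval₂Hom, eval₂_C, phi_Wg]
    · funext b
      rw [coe_eval₂Hom, eval₂_X]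
  have hx0 : x 0 = TrivSqZeroExt.inl T := by
    apply TrivSqZeroExt.ext
    · rw [hx, toD_fst]; rfl
    · rw [hx, toD_snd]; rfl
  have hx1 : x 1 = 1 := by
    apply TrivSqZeroExt.ext
    · rw [hx, toD_fst]; rfl
    · rw [hx, toD_snd]; rfl
  have h3 := bin_Fg.eval₂ (phi B) x (TrivSqZeroExt.inl T) hx0 hx1
  rw [h2, h1] at h3
  have h4 := congrArg TrivSqZeroExt.snd h3
  rw [toD_snd] at h4
  unfold final
  rw [h4, TrivSqZeroExt.snd_sum]
  refine Finset.sum_congr rfl fun m _ => ?_
  rw [TrivSqZeroExt.inl_pow, TrivSqZeroExt.snd_mul, TrivSqZeroExt.snd_inl, TrivSqZeroExt.fst_inl,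
    smul_zero, zero_add, phi_snd, op_smul_eq_smul, smul_eq_mul, mul_comm, Finset.sum_range]
  simp only [ll_fin, Nn]

theorem ll_lt (m j : ℕ) (hm : m < 65) (hj : j < 65) : ll m j < bb := by
  refine lt_of_le_of_lt ?_ check1
  rw [final_eq]
  simp only [one_pow, mul_one]
  calc ll m j ≤ ∑ j ∈ Finset.range 65, ll m j :=
        Finset.single_le_sum (fun _ _ => Nat.zero_le _) (Finset.mem_range.2 hj)
    _ ≤ _ := Finset.single_le_sum (f := fun m => ∑ j ∈ Finset.range 65, ll m j)
        (fun _ _ => Nat.zero_le _) (Finset.mem_range.2 hm)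

theorem ll_mod (m j : ℕ) (hm : m < 65) (hj : j < 65) :
    ll m j % 13 = if j = m then 1 else 0 := by
  have hb : 0 < bb := by unfold bb; positivity
  have := chkAll_spec bb 13 hb (fun m j => if m < 65 then ll m j else 0) (by
    intro m j hj
    split_ifs with h
    · exact ll_lt m j h hj
    · exact hb) 65 0 (final bb (bb ^ 65)) (by
      rw [final_eq]
      refine Finset.sum_congr rfl fun i hi => ?_
      rw [zero_add]
      simp only [if_pos (Finset.mem_range.1 hi)]) check2 m hm j hj
  simp only [zero_add, if_pos hm] at this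
  exact this

/-- the coefficients of the generic network over the complex numbers -/
noncomputable def NC (m : Fin 65) : MvPolynomial (Fin 65) ℂ := map (Nat.castRingHom ℂ) (Nn m)

theorem det_ne_zero :
    (Matrix.of fun i j : Fin 65 => coeff (Finsupp.single j 1) (NC i)).det ≠ 0 := by
  set L : Matrix (Fin 65) (Fin 65) ℤ := Matrix.of fun i j => (ll i j : ℤ) with hL
  have h1 : (Matrix.of fun i j : Fin 65 => coeff (Finsupp.single j 1) (NC i)) =
      (Int.castRingHom ℂ).mapMatrix L := by
    ext i j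
    simp only [NC, coeff_map, Matrix.of_apply, RingHom.mapMatrix_apply, Matrix.map_apply, hL, ll_fin]
    simp
  rw [h1, ← RingHom.map_det]
  intro h0
  have h2 : L.det = 0 := by
    have : ((L.det : ℤ) : ℂ) = 0 := h0
    exact_mod_cast this
  have h3 : (Int.castRingHom (ZMod 13)).mapMatrix L = 1 := by
    ext i j
    simp only [RingHom.mapMatrix_apply, Matrix.map_apply, hL, Matrix.of_apply, Matrix.one_apply]
    have h4 := ll_mod i j i.2 j.2
    have h5 : ((ll i j : ℤ) : ZMod 13) = ((ll i j % 13 : ℕ) : ZMod 13) := by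
      rw [ZMod.natCast_mod]
      simp
    have h6 : (Int.castRingHom (ZMod 13)) (ll i j : ℤ) = ((ll i j : ℤ) : ZMod 13) := rfl
    rw [h6, h5, h4]
    by_cases h : i = j
    · subst h; simp
    · have : ¬ (j : ℕ) = i := fun e => h (Fin.ext e.symm)
      simp [h, this]
  have h4 := congrArg Matrix.det h3
  rw [← RingHom.map_det, h2, map_zero, Matrix.det_one] at h4
  exact absurd h4 (by decide)

theorem eq_zero_of_aeval_NC (G : MvPolynomial (Fin 65) ℂ) (hG : aeval NC G = 0) : G = 0 :=
  eq_zero_of_aeval_eq_zero NC det_ne_zero G hG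

end Pool.Agent.N95.UN
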