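import Mathlib

/-!
# Polynomial networks with quadratic activation: basic facts
-/

set_option autoImplicit false

namespace Pool.Agent.N95.UN

open MvPolynomial

/-- one linear layer -/
def lay {R : Type*} [CommSemiring R] (n : ℕ) (w : ℕ → ℕ → R) (h : ℕ → R) : ℕ → R :=
  fun a => ∑ b ∈ Finset.range n, w a b * h b

/-- the outputs of the `k`-th layer (before the activation), `k = 0` is the input -/
def out {R : Type*} [CommSemiring R] (e : ℕ → ℕ) (W : ℕ → ℕ → ℕ → R) (x : ℕ → R) : ℕ → ℕ → R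
  | 0 => x
  | 1 => lay (e 0) (W 0) x
  | k + 2 => lay (e (k + 1)) (W (k + 1)) (fun b => out e W x (k + 1) b ^ 2)

theorem lay_map {R S : Type*} [CommSemiring R] [CommSemiring S] (φ : R →+* S) (n : ℕ)
    (w : ℕ → ℕ → R) (h : ℕ → R) (a : ℕ) :
    φ (lay n w h a) = lay n (fun a b => φ (w a b)) (fun b => φ (h b)) a := by
  simp [lay, map_sum, map_mul]

theorem out_map {R S : Type*} [CommSemiring R] [CommSemiring S] (φ : R →+* S) (e : ℕ → ℕ)
    (W : ℕ → ℕ → ℕ → R) (x : ℕ → R) : ∀ (k a : ℕ),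
    φ (out e W x k a) = out e (fun k a b => φ (W k a b)) (fun b => φ (x b)) k a
  | 0, a => rfl
  | 1, a => lay_map φ _ _ _ a
  | k + 2, a => by
    rw [out, out, lay_map]
    congr 1
    funext b
    rw [map_pow, out_map φ e W x (k + 1) b]

/-- the exponent of the monomial `X 0 ^ i * X 1 ^ (D - i)` -/
noncomputable def mon (D i : ℕ) : ℕ →₀ ℕ := Finsupp.single 0 i + Finsupp.single 1 (D - i)

theorem mon_zero (D i : ℕ) : mon D i 0 = i := by simp [mon]

theorem mon_one (D i : ℕ) : mon D i 1 = D - i := by simp [mon]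

theorem mon_ne (D i b : ℕ) (hb : 2 ≤ b) : mon D i b = 0 := by
  have h0 : (0 : ℕ) ≠ b := by omega
  have h1 : (1 : ℕ) ≠ b := by omega
  simp [mon, h0, h1]

theorem mon_injective (D : ℕ) {i j : ℕ} (h : mon D i = mon D j) : i = j := by
  rw [← mon_zero D i, h, mon_zero]

theorem mon_add {D E i j : ℕ} (hi : i ≤ D) (hj : j ≤ E) : mon D i + mon E j = mon (D + E) (i + j) := by
  ext b
  rcases Nat.lt_or_ge b 2 with hb | hb
  · interval_cases b
    · simp [mon_zero]
    · simp only [Finsupp.add_apply, mon_one]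
      omega
  · simp [mon_ne _ _ _ hb]

/-- `F` is a form of degree `D` in the variables `0` and `1`. -/
def Bin {R : Type*} [CommSemiring R] (D : ℕ) (F : MvPolynomial ℕ R) : Prop :=
  ∀ μ ∈ F.support, ∃ i, i ≤ D ∧ μ = mon D i

section
variable {R : Type*} [CommSemiring R]

theorem Bin.zero (D : ℕ) : Bin D (0 : MvPolynomial ℕ R) := by
  intro μ hμ
  simp at hμ

theorem Bin.add {D : ℕ} {F G : MvPolynomial ℕ R} (hF : Bin D F) (hG : Bin D G) : Bin D (F + G) := by
  classical
  intro μ hμ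
  have := support_add hμ
  rcases Finset.mem_union.1 this with h | h
  · exact hF μ h
  · exact hG μ h

theorem Bin.sum {ι : Type*} {D : ℕ} (s : Finset ι) (F : ι → MvPolynomial ℕ R)
    (h : ∀ i ∈ s, Bin D (F i)) : Bin D (∑ i ∈ s, F i) := by
  classical
  induction s using Finset.induction_on with
  | empty => simpa using Bin.zero D
  | insert a s ha ih =>
    rw [Finset.sum_insert ha]
    exact (h a (Finset.mem_insert_self _ _)).add (ih fun i hi => h i (Finset.mem_insert_of_mem hi))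

theorem Bin.C_mul {D : ℕ} {F : MvPolynomial ℕ R} (hF : Bin D F) (c : R) : Bin D (C c * F) := by
  intro μ hμ
  apply hF
  rw [mem_support_iff] at hμ ⊢
  rw [coeff_C_mul] at hμ
  exact right_ne_zero_of_mul hμ

theorem Bin.mul {D E : ℕ} {F G : MvPolynomial ℕ R} (hF : Bin D F) (hG : Bin E G) :
    Bin (D + E) (F * G) := by
  classical
  intro μ hμ
  have := support_mul _ _ hμ
  obtain ⟨μ₁, h1, μ₂, h2, rfl⟩ := Finset.mem_add.1 this
  obtain ⟨i, hi, rfl⟩ := hF _ h1
  obtain ⟨j, hj, rfl⟩ := hG _ h2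
  exact ⟨i + j, by omega, mon_add hi hj⟩

theorem Bin.sq {D : ℕ} {F : MvPolynomial ℕ R} (hF : Bin D F) : Bin (2 * D) (F ^ 2) := by
  rw [pow_two, two_mul]
  exact hF.mul hF

theorem bin_X (b : ℕ) (hb : b < 2) : Bin 1 (X b : MvPolynomial ℕ R) := by
  intro μ hμ
  have h1 : μ = Finsupp.single b 1 := by
    by_contra hne
    rw [mem_support_iff, coeff_X, if_neg (fun h => hne h.symm)] at hμ
    exact hμ rfl
  interval_cases b
  · refine ⟨1, le_rfl, ?_⟩
    rw [h1]
    simp [mon]
  · refine ⟨0, by omega, ?_⟩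
    rw [h1]
    simp [mon]

theorem bin_out (e : ℕ → ℕ) (he : e 0 ≤ 2) (W : ℕ → ℕ → ℕ → R) : ∀ k a : ℕ,
    Bin (2 ^ k) (out e (fun k a b => C (W k a b)) (fun b => (X b : MvPolynomial ℕ R)) (k + 1) a)
  | 0, a => by
    rw [out, lay]
    refine Bin.sum _ _ fun b hb => ?_
    exact (bin_X b (lt_of_lt_of_le (Finset.mem_range.1 hb) he)).C_mul _
  | k + 1, a => by
    rw [out, lay]
    refine Bin.sum _ _ fun b hb => ?_
    have := (bin_out e he W k b).sq
    rw [pow_succ, mul_comm]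
    exact this.C_mul _

theorem Bin.eq_sum {D : ℕ} {F : MvPolynomial ℕ R} (hF : Bin D F) :
    F = ∑ m ∈ Finset.range (D + 1), monomial (mon D m) (coeff (mon D m) F) := by
  ext μ
  rw [coeff_sum]
  by_cases h : ∃ i, i ≤ D ∧ μ = mon D i
  · obtain ⟨i, hi, rfl⟩ := h
    rw [Finset.sum_eq_single i]
    · rw [coeff_monomial, if_pos rfl]
    · intro j _ hj
      rw [coeff_monomial, if_neg]
      intro h
      exact hj (mon_injective D h)
    · intro h
      exact absurd (Finset.mem_range.2 (Nat.lt_succ_of_le hi)) h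
  · have h1 : coeff μ F = 0 := by
      by_contra hne
      exact h (hF μ (mem_support_iff.2 hne))
    rw [h1]
    symm
    apply Finset.sum_eq_zero
    intro i hi
    rw [coeff_monomial, if_neg]
    rintro rfl
    exact h ⟨i, Nat.lt_succ_iff.1 (Finset.mem_range.1 hi), rfl⟩

/-- evaluation of a form in two variables at `(t, 1)` -/
theorem Bin.eval₂ {S : Type*} [CommSemiring S] {D : ℕ} {F : MvPolynomial ℕ R} (hF : Bin D F)
    (φ : R →+* S) (x : ℕ → S) (t : S) (h0 : x 0 = t) (h1 : x 1 = 1) :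
    eval₂Hom φ x F = ∑ m ∈ Finset.range (D + 1), φ (coeff (mon D m) F) * t ^ m := by
  conv_lhs => rw [hF.eq_sum]
  rw [map_sum]
  refine Finset.sum_congr rfl fun m _ => ?_
  rw [coe_eval₂Hom, eval₂_monomial]
  congr 1
  unfold mon
  rw [Finsupp.prod_add_index' (fun _ => pow_zero _) (fun _ _ _ => pow_add _ _ _)]
  have h2 : (Finsupp.single 0 m).prod (fun b n => x b ^ n) = t ^ m := by
    rw [Finsupp.prod_single_index (h := fun b n => x b ^ n) (pow_zero _), h0]
  have h3 : (Finsupp.single 1 (D - m)).prod (fun b n => x b ^ n) = 1 := by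
    rw [Finsupp.prod_single_index (h := fun b n => x b ^ n) (pow_zero _), h1, one_pow]
  exact (congrArg₂ (· * ·) h2 h3).trans (mul_one _)

end

/-- the network of the frozen statement -/
theorem fold_eq (e : Fin (7 + 1) → ℕ) (e' : ℕ → ℕ) (he : ∀ k : Fin 7, e k.castSucc = e' k)
    (W : Fin 7 → ℕ → ℕ → ℂ) (W' : ℕ → ℕ → ℕ → ℂ) (hW : ∀ k : Fin 7, W k = W' k) :
    ((List.finRange 7).foldl
      (fun (h : ℕ → MvPolynomial ℕ ℂ) (k : Fin 7) (a : ℕ) =>
        ∑ b ∈ Finset.range (e k.castSucc),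
          MvPolynomial.C (W k a b) * h b ^ (if (k : ℕ) = 0 then 1 else 2))
      (fun b : ℕ => (MvPolynomial.X b : MvPolynomial ℕ ℂ))) =
    out e' (fun k a b => C (W' k a b)) (fun b => X b) 7 := by
  have h7 : List.finRange 7 = [0, 1, 2, 3, 4, 5, 6] := by decide
  rw [h7]
  simp only [List.foldl_cons, List.foldl_nil, he, hW]
  simp [out, lay]
  rfl

end Pool.Agent.N95.UN
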